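import Pool.Agent.Lib.helper21.VL

set_option autoImplicit false

/-! Bounded sets enumerated with an oracle are covered along LR reducibility. -/

namespace Pool.Agent.H.MP_de6bcb_lc

open Pool.Agent.Lib.helper21 Pool.Agent.Lib.helper21.PR Pool.Agent.H.MP_fa2eca_lc
open Pool.Agent.Lib.helper21.ML Encodable MeasureTheory Finset Filter
open Pool.Agent.H.MP_d04dff_lc hiding St
open scoped ENNReal Classical

attribute [local irreducible] Primrec Computable

theorem half {G : Set Fn.Om} (hG : MeasurableSet G) (j : ℕ)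
    (h : ∀ X Y, (∀ n ≠ j, X n = Y n) → X ∈ G → Y ∈ G) :
    Fn.mu (G ∩ {X | X j = false}) = Fn.mu G * 2⁻¹ := by
  have m : MeasurableSet {X : Fn.Om | X j = false} :=
    measurableSet_eq_fun (measurable_pi_apply j) measurable_const
  have a := (xor_mp fun i => decide (i = j)).measure_preimage (hG.inter m).nullMeasurableSet
  replace a : Fn.mu (G \ {X | X j = false}) = _ := (congrArg _ (Set.ext fun X => and_congr
    ⟨h _ _ fun n e => by simp [e], h _ _ fun n e => by simp [e]⟩ (by simp))).trans a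
  rw [← measure_inter_add_diff G m, a, ← mul_two, mul_assoc,
    ENNReal.mul_inv_cancel (by simp) (by simp), mul_one]

theorem zmeas (g : ℕ → ℕ) (r : ℕ) : MeasurableSet {X : Fn.Om | ∀ j < r, X (g j) = false} := by
  simp only [Set.setOf_forall]
  exact .iInter fun j => .iInter fun _ =>
    measurableSet_eq_fun (measurable_pi_apply _) measurable_const

theorem blk {G : Set Fn.Om} (hG : MeasurableSet G) {g : ℕ → ℕ} (hg : g.Injective)
    (h : ∀ X Y, (∀ n, (∀ j, n ≠ g j) → X n = Y n) → X ∈ G → Y ∈ G) (r : ℕ) :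
    Fn.mu (G ∩ {X | ∀ j < r, X (g j) = false}) = Fn.mu G * 2⁻¹ ^ r := by
  induction r with
  | zero => simp
  | succ r ih =>
    rw [pow_succ, ← mul_assoc, ← ih, ← half (hG.inter (zmeas g r)) (g r) fun X Y e a =>
      ⟨h _ _ (fun n b => e n (b r)) a.1, fun j b => e _ (hg.ne b.ne) ▸ a.2 j b⟩, Set.inter_assoc]
    exact congrArg _ (congrArg _ (Set.ext fun X => Nat.forall_lt_succ_right))

noncomputable def wt (f : ℕ → ℕ) (I : ℕ → Prop) : ℝ≥0∞ := ∑' i, if I i then 2⁻¹ ^ f i else 0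

variable {f : ℕ → ℕ} {I : ℕ → Prop}

theorem wt_le {c : ℝ≥0∞} :
    wt f I ≤ c ↔ ∀ S : Finset ℕ, (∀ i ∈ S, I i) → ∑ i ∈ S, 2⁻¹ ^ f i ≤ c := by
  rw [wt, ENNReal.tsum_eq_iSup_sum, iSup_le_iff]
  exact ⟨fun h S a => (sum_congr rfl fun i b => (if_pos (a i b)).symm).trans_le (h S),
    fun h S => (sum_filter _ _).symm.trans_le (h _ fun i b => (mem_filter.1 b).2)⟩

def E (f : ℕ → ℕ) (k i : ℕ) : Set Fn.Om := {X | ∀ j < f i, X (k.pair (i.pair j)) = false}

theorem Em (k i : ℕ) : MeasurableSet (E f k i) := zmeas _ _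

theorem Ei {G : Set Fn.Om} (hG : MeasurableSet G) (k i : ℕ)
    (h : ∀ X Y, (∀ n, (∀ j, n ≠ k.pair (i.pair j)) → X n = Y n) → X ∈ G → Y ∈ G) :
    Fn.mu (G ∩ E f k i) = Fn.mu G * 2⁻¹ ^ f i :=
  blk hG (g := fun j => k.pair (i.pair j)) (fun _ _ => by simp) h _

theorem tst (b : wt f I ≤ 2⁻¹) (n : ℕ) :
    Fn.mu {X | ∀ k < n, ∃ i, I i ∧ X ∈ E f k i} ≤ 2⁻¹ ^ n := by
  induction n with
  | zero => simp
  | succ n ih =>
    have m : MeasurableSet {X | ∀ k < n, ∃ i, I i ∧ X ∈ E f k i} := by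
      simp only [Set.setOf_forall, Set.setOf_exists]
      exact .iInter fun j => .iInter fun _ => .iUnion fun i => (MeasurableSet.const _).inter (Em _ _)
    refine (measure_mono (t := ⋃ i, if I i then
      {X | ∀ k < n, ∃ i, I i ∧ X ∈ E f k i} ∩ E f n i else ∅) fun X a => ?_).trans
        ((measure_iUnion_le _).trans ((ENNReal.tsum_le_tsum (g := fun i =>
          2⁻¹ ^ n * if I i then 2⁻¹ ^ f i else 0) fun i => ?_).trans ?_))
    · obtain ⟨i, c, d⟩ := a n (by omega)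
      exact Set.mem_iUnion.2 ⟨i, by rw [if_pos c]; exact ⟨fun k e => a k (by omega), d⟩⟩
    · split_ifs
      · rw [Ei m n i fun X Y e a k c => (a k c).imp fun i d => ⟨d.1, fun j u =>
          (e _ (by simp [c.ne])).symm.trans (d.2 j u)⟩]
        gcongr
      · simp
    · rw [ENNReal.tsum_mul_left, pow_succ]
      exact mul_le_mul_right b _

theorem prd (k : ℕ) (S : Finset ℕ) :
    Fn.mu {X | ∀ i ∈ S, X ∉ E f k i} * (1 + ∑ i ∈ S, 2⁻¹ ^ f i) ≤ 1 := by
  induction S using Finset.induction_on with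
  | empty => simp
  | insert a S ha ih =>
    have m : MeasurableSet {X | ∀ i ∈ S, X ∉ E f k i} := by
      simp only [Set.setOf_forall]
      exact .iInter fun j => .iInter fun _ => (Em _ _).compl
    have h := measure_inter_add_diff (μ := Fn.mu) {X | ∀ i ∈ S, X ∉ E f k i} (Em (f := f) k a)
    rw [Ei m k a fun X Y e b i c d => b i c fun j u =>
      (e _ (by simp [ne_of_mem_of_not_mem c ha])).trans (d j u)] at h
    rw [sum_insert ha, show {X | ∀ i ∈ insert a S, X ∉ E f k i} =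
      {X | ∀ i ∈ S, X ∉ E f k i} \ E f k a by ext; simp [and_comm]]
    refine le_trans ?_ ih
    rw [← h, add_left_comm, mul_add, add_mul]
    refine add_le_add_left (le_trans ?_ (le_mul_of_one_le_right' le_self_add)) _
    gcongr
    exact Set.diff_subset

def opn (R : Str → Prop) : Set Fn.Om := {Y | ∃ m, R (pre Y m)}

theorem approx {D : ℕ → Bool} {W : ℕ → Str → Prop} (h : RI D fun z : ℕ × Str => W z.1 z.2) (g : ℕ) :
    ∃ J, RI D J ∧ (∀ i, Fn.mu (opn (W i))ᶜ = 0 → J i) ∧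
      ∀ i, J i → Fn.mu (opn (W i))ᶜ ≤ 2⁻¹ ^ (g + (i + 1)) := by
  obtain ⟨N, h1, h2, -, h3⟩ := h.norm
  have hA := ci_self D
  have tb : Primrec fun z : ℕ × ℕ => Fn.tb z.1 z.2 := Fn.tb_prim
  have l : ∀ i s, Fn.Loc s fun Y => ¬ St N i s D Y := fun _ _ _ _ e k k' =>
    k (k'.congr le_rfl (fun _ _ => rfl) fun i a => (e i a).symm)
  have e : ∀ i, (opn (W i))ᶜ = ⋂ s, {Y | ¬ St N i s D Y} := fun i => by
    ext Y
    simp only [Set.mem_compl_iff, Set.mem_iInter, Set.mem_setOf_eq, ← not_exists]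
    exact not_congr ⟨fun ⟨m, a⟩ => let ⟨k, t, b⟩ := h3 (i, _) a
      ⟨m + k + t + 1, m, by omega, k, by omega, t, by omega, b⟩,
        fun ⟨_, m, _, k, _, t, _, a⟩ => ⟨m, h2 _ _ _ a⟩⟩
  refine ⟨fun i => ∃ s, 2 ^ (g + (i + 1)) * ((range (2 ^ s)).filter fun m =>
    ¬ St N i s D (Fn.tb m)).card ≤ 2 ^ s, RI.un (by unfold St; fun_prop), fun i a => ?_,
      fun i ⟨s, a⟩ => (measure_mono (e i ▸ Set.iInter_subset _ s)).trans ((cnt_le (l i s)).2 a)⟩
  rw [e, Antitone.measure_iInter (s := fun s => {Y | ¬ St N i s D Y})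
    (fun s t b Y c d => c (d.congr b (fun _ _ => rfl) fun _ _ => rfl)) (fun s => (l i s).closed.measurableSet.nullMeasurableSet) ⟨0, measure_ne_top _ _⟩] at a
  obtain ⟨s, b⟩ := iInf_lt_iff.1 (a.trans_lt (ENNReal.pow_pos (a := 2⁻¹) (by simp) (g + (i + 1))))
  exact ⟨s, (cnt_le (l i s)).1 b.le⟩

theorem small {x : ℝ≥0∞} (h : x ≠ 0) : ∃ n, 2⁻¹ ^ n < x := ENNReal.exists_inv_two_pow_lt h

theorem kms0 {C D : ℕ → Bool} (h : ∀ X, RR D X → RR C X) (hI : RI C I) (hf : Primrec f)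
    (b : wt f I ≤ 2⁻¹) : ∃ J, RI D J ∧ (∀ i, I i → J i) ∧ wt f J ≠ ⊤ := by
  by_contra! c
  let W : ℕ → ℕ → Str → Prop := fun k n σ => J D (k.pair (encode (n, σ))) = true
  have hW : ∀ k n, RI D (W k n) := fun k n => (i_comp (f := fun σ : Str => k.pair (encode (n, σ)))
    (J_ri D) (by fun_prop)).of_eq fun _ => .rfl
  have step : ∀ k (R : {R : Str → Prop // RI D R ∧ Fn.mu (opn R)ᶜ ≠ 0}),
      ∃ R' : {R : Str → Prop // RI D R ∧ Fn.mu (opn R)ᶜ ≠ 0}, (opn R'.1)ᶜ ⊆ (opn R.1)ᶜ ∧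
        (∃ i, I i ∧ (opn R'.1)ᶜ ⊆ E f k i) ∧
          ((∀ n, Fn.mu (opn (W k n)) ≤ 2⁻¹ ^ n) → ∃ n, (opn R'.1)ᶜ ⊆ (opn (W k n))ᶜ) := by
    intro k ⟨R, h1, h2⟩
    let V : ℕ → Str → Prop := fun i σ => R σ ∨ ∃ j < f i, σ.getD (k.pair (i.pair j)) false = true
    have h3 : RI D fun z : ℕ × Str => V z.1 z.2 := RI.un (by unfold V; fun_prop)
    have h4 : ∀ i, (opn (V i))ᶜ = (opn R)ᶜ ∩ E f k i := fun i => by
      ext Y
      simp only [opn, V, E, Set.mem_compl_iff, Set.mem_inter_iff, Set.mem_setOf_eq, exists_or, not_or]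
      refine and_congr_right fun _ => ⟨fun a j d => Bool.eq_false_iff.2 fun e =>
        a ⟨k.pair (i.pair j) + 1, j, d, by simp [pre, e]⟩, fun a ⟨m, j, d, e⟩ => ?_⟩
      by_cases u : k.pair (i.pair j) < m <;> simp [pre, u, a j d] at e
    obtain ⟨i, h5, h6⟩ : ∃ i, I i ∧ Fn.mu (opn (V i))ᶜ ≠ 0 := by
      by_contra! a
      obtain ⟨g, hg⟩ := small h2
      obtain ⟨J, j1, j2, j3⟩ := approx h3 g
      refine ne_top_of_le_ne_top (ENNReal.inv_ne_top.2 (tsub_pos_of_lt hg).ne')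
        (wt_le.2 fun S d => ?_) (c J j1 fun i d => j2 i (a i d))
      refine ENNReal.le_inv_iff_mul_le.2 (le_trans ?_ (prd (f := f) k S))
      rw [mul_comm]
      refine mul_le_mul' (tsub_le_iff_right.2 ((measure_mono (t := {X | ∀ i ∈ S, X ∉ E f k i} ∪
        ⋃ i ∈ S, (opn (V i))ᶜ) fun X u => ?_).trans ((measure_union_le _ _).trans
          (add_le_add_right ((measure_biUnion_finset_le _ _).trans ((sum_le_sum fun i u =>
            j3 i (d i u)).trans ((ENNReal.sum_le_tsum _).trans_eq ?_))) _)))) le_add_self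
      · refine or_iff_not_imp_left.2 fun v => ?_
        obtain ⟨i, v1, v2⟩ : ∃ i ∈ S, X ∈ E f k i := by simpa using v
        exact Set.mem_biUnion v1 (h4 i ▸ ⟨u, v2⟩)
      · simp only [pow_add _ g]
        rw [ENNReal.tsum_mul_left, ENNReal.tsum_geometric_add_one]
        simp [ENNReal.inv_mul_cancel]
    have h7 : RI D (V i) := RI.un (by unfold V; fun_prop)
    by_cases a : ∀ n, Fn.mu (opn (W k n)) ≤ 2⁻¹ ^ n
    · obtain ⟨n, hn⟩ := small h6
      have h8 : (opn fun σ => V i σ ∨ W k n σ)ᶜ = (opn (V i))ᶜ \ opn (W k n) := by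
        ext Y; simp [opn, exists_or, not_or]
      exact ⟨⟨fun σ => V i σ ∨ W k n σ, (i_or (i_pw h7) (i_pw (hW k n))).un, h8 ▸ fun d =>
        hn.not_ge ((measure_le_inter_add_diff _ _ (opn (W k n))).trans (by
          rw [d, add_zero]; exact (measure_mono Set.inter_subset_right).trans (a n)))⟩,
          fun Y d => (h4 i ▸ (h8 ▸ d).1).1, ⟨i, h5, fun Y d => (h4 i ▸ (h8 ▸ d).1).2⟩,
            fun _ => ⟨n, fun Y d => (h8 ▸ d).2⟩⟩
    · exact ⟨⟨V i, h7, h6⟩, fun Y d => (h4 i ▸ d).1, ⟨i, h5, fun Y d => (h4 i ▸ d).2⟩,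
        fun d => absurd d a⟩
  choose nx h1 h2 h3 using step
  let sq : ℕ → _ := Nat.rec ⟨fun _ => False, RI.un (by fun_prop), by simp [opn]⟩ nx
  obtain ⟨X, hX⟩ := Fn.compact' (fun s => (opn (sq s).1)ᶜ) (fun s => by
    rw [show (opn (sq s).1)ᶜ = ⋂ m, {Y | ¬ (sq s).1 (pre Y m)} by ext; simp [opn]]
    exact isClosed_iInter fun m => Fn.Loc.closed (s := m) fun _ _ e a => by rwa [← pre_congr e])
      (fun s => h1 s _) fun s => nonempty_of_measure_ne_zero (sq s).2.2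
  have r : RR D X := fun U u1 u2 => by
    obtain ⟨k, hk⟩ := u1.idx
    have : W k = U := funext₂ fun n σ => propext (hk (n, σ))
    obtain ⟨n, hn⟩ := h3 k (sq k) (this ▸ u2)
    exact ⟨n, fun m a => hn (hX (k + 1)) ⟨m, this ▸ a⟩⟩
  obtain ⟨n, hn⟩ := h X r (fun n σ => ∀ k < n, ∃ i, I i ∧
    ∀ j < f i, σ.getD (k.pair (i.pair j)) true = false) (RI.un (by fun_prop)) fun n =>
      (tst b n).trans' (measure_mono fun Y ⟨m, a⟩ k d => (a k d).imp fun i e => ⟨e.1, fun j u => by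
        have := e.2 j u
        by_cases v : k.pair (i.pair j) < m <;> simp_all [pre]⟩)
  choose i i1 i2 using fun k => h2 k (sq k)
  have : ∀ᶠ m in atTop, ∀ k ∈ Set.Iio n, ∀ j ∈ Set.Iio (f (i k)), k.pair ((i k).pair j) < m :=
    (eventually_all_finite (Set.finite_Iio _)).2 fun k _ =>
      (eventually_all_finite (Set.finite_Iio _)).2 fun j _ => eventually_gt_atTop _
  obtain ⟨m, hm⟩ := this.exists
  exact hn m fun k a => ⟨i k, i1 k, fun j d => by
    simpa [pre, hm k a j d] using i2 k (hX (k + 1)) j d⟩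

theorem wt_add (a : ℕ) : wt (fun i => f i + a) I = wt f I * 2⁻¹ ^ a := by
  simp only [wt, ← ENNReal.tsum_mul_right, pow_add, ite_mul, zero_mul]

theorem kms {C D : ℕ → Bool} (h : ∀ X, RR D X → RR C X) (hI : RI C I) (hf : Primrec f) {a : ℕ}
    (b : wt f I ≤ 2 ^ a) : ∃ J, RI D J ∧ (∀ i, I i → J i) ∧ ∃ c : ℕ, wt f J ≤ c := by
  obtain ⟨J, h1, h2, h3⟩ := kms0 (f := fun i => f i + (a + 1)) h hI (by fun_prop) (by
    rw [wt_add, pow_succ, ← mul_assoc]
    refine mul_le_of_le_one_left' ((mul_le_mul_left b _).trans_eq ?_)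
    rw [← mul_pow, ENNReal.mul_inv_cancel (by simp) (by simp), one_pow])
  rw [wt_add] at h3
  exact ⟨J, h1, h2, (ENNReal.exists_nat_gt (ENNReal.lt_top_of_mul_ne_top_left h3 (by simp)).ne).imp
    fun _ => le_of_lt⟩

end Pool.Agent.H.MP_de6bcb_lc
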