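import Pool.Agent.H.MP_de6bcb_lc.A

set_option autoImplicit false

/-! Hungry sets with repeated requests. -/

namespace Pool.Agent.H.MP_de6bcb_lc

open Pool.Agent.Lib.helper21 Pool.Agent.Lib.helper21.PR Pool.Agent.H.MP_fa2eca_lc
open Pool.Agent.Lib.helper21.ML Encodable MeasureTheory Finset Filter
open Pool.Agent.H.MP_d04dff_lc hiding St
open scoped ENNReal Classical

attribute [local irreducible] Primrec Computable

def fw (i : ℕ) : ℕ := i.unpair.1 + i.unpair.2.unpair.2.unpair.1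
def it (t x l k : ℕ) : ℕ := t.pair (x.pair (l.pair k))

noncomputable def ns (P : ℕ → Prop) (s : ℕ) : ℕ :=
  ∑ j ∈ range s, if P j then 2 ^ (s - fw j) else 0

theorem ns_le {P : ℕ → Prop} {s c : ℕ} :
    ns P s ≤ c * 2 ^ s ↔ ∑ j ∈ (range s).filter P, (2⁻¹ : ℝ≥0∞) ^ fw j ≤ c := by
  rw [← ENNReal.mul_le_mul_iff_left (c := 2 ^ s) (by simp) (by simp), sum_mul, ns, ← sum_filter,
    ← Nat.cast_le (α := ℝ≥0∞)]
  push_cast
  rw [sum_congr rfl fun j a => ?_]
  have h1 := Nat.unpair_add_le j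
  have h2 := (Nat.unpair_left_le _).trans (Nat.unpair_right_le j.unpair.2)
  have h3 := mem_range.1 (mem_filter.1 a).1
  obtain ⟨d, rfl⟩ : ∃ d, s = fw j + d := ⟨s - fw j, by unfold fw; omega⟩
  rw [Nat.add_sub_cancel_left, pow_add, ← mul_assoc, ← mul_pow,
    ENNReal.inv_mul_cancel (by simp) (by simp), one_pow, one_mul]

theorem int_wt {I : Fn.Om → ℕ → Prop} (h : ∀ i, MeasurableSet {X | I X i}) :
    (AEMeasurable (fun X => wt fw (I X)) Fn.mu) ∧
      ∫⁻ X, wt fw (I X) ∂Fn.mu = ∑' i, 2⁻¹ ^ fw i * Fn.mu {X | I X i} := by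
  have e : ∀ i X, (if I X i then (2⁻¹ : ℝ≥0∞) ^ fw i else 0) =
      {X | I X i}.indicator (fun _ => 2⁻¹ ^ fw i) X := fun i X => by simp [Set.indicator_apply]
  simp only [wt, e]
  have m := fun i => ((measurable_const (a := (2⁻¹ : ℝ≥0∞) ^ fw i)).indicator
    (h i)).aemeasurable (μ := Fn.mu)
  exact ⟨.ennreal_tsum m, (lintegral_tsum m).trans
    (tsum_congr fun i => lintegral_indicator_const (h i) _)⟩

theorem conv {α : Type} (F : Finset α) (g : α → ℕ) :
    ∑ x ∈ F, (1 / 2 : ℝ) ^ g x ≤ 1 ↔ ∑ x ∈ F, (2⁻¹ : ℝ≥0∞) ^ g x ≤ 1 := by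
  rw [← ENNReal.ofReal_le_one, ENNReal.ofReal_sum_of_nonneg fun _ _ => by positivity]
  simp [ENNReal.ofReal_inv_of_pos, ENNReal.ofReal_pow, ENNReal.inv_pow]

variable (N M : ℕ × ℕ → ℕ → Bool) (A : ℕ → Bool)

def En (e i s : ℕ) (X : ℕ → Bool) : Prop := ∃ m < s, N (e, encode (i, pre X m)) s = true

def Cf (t i s : ℕ) (X : ℕ → Bool) : Prop := ∃ u < s, i < u ∧ En N t.unpair.1 i u X ∧
  ns (fun j => En N t.unpair.1 j u X) u ≤ t.unpair.2 * 2 ^ u

noncomputable def cum (t x l s : ℕ) : ℕ :=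
  ∑ k ∈ range s, ((range (2 ^ s)).filter fun m => Cf N t (it t x l k) s (Fn.tb m)).card

def Nx (t x l k s : ℕ) (X : ℕ → Bool) : Prop :=
  cum N t x l s ≤ 2 ^ s ∧ k < s ∧ Cf N t (it t x l k) s X

def Is (i s : ℕ) (X : ℕ → Bool) : Prop := ∃ n < s, i.unpair.2.unpair.1 = encode (pre A n) ∧
  (∃ v < s, M (n, i.unpair.2.unpair.2.unpair.1) v = true) ∧ (i.unpair.2.unpair.2.unpair.2 = 0 ∨
    ∃ u < s, Nx N i.unpair.1 i.unpair.2.unpair.1 i.unpair.2.unpair.2.unpair.1
      (i.unpair.2.unpair.2.unpair.2 - 1) u X)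

variable {N M A} {e t x l k i s s' : ℕ} {X Y : ℕ → Bool}

theorem En.iff (h : ∀ i < s, X i = Y i) : En N e i s X ↔ En N e i s Y :=
  exists_congr fun m => and_congr_right fun a => by rw [pre_congr fun i b => h i (b.trans a)]

theorem Cf.congr (h : Cf N t i s X) (a : s ≤ s') (b : ∀ i < s, X i = Y i) : Cf N t i s' Y := by
  obtain ⟨u, c, d⟩ := h
  simp only [En.iff fun i e => b i (e.trans c)] at d
  exact ⟨u, c.trans_le a, d⟩

theorem Is.congr (h : Is N M A i s X) (a : s ≤ s') (b : ∀ i < s, X i = Y i) : Is N M A i s' Y :=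
  let ⟨n, c, d, ⟨v, e, f⟩, g⟩ := h
  ⟨n, c.trans_le a, d, ⟨v, e.trans_le a, f⟩, g.imp_right fun ⟨u, p, q, r, w⟩ =>
    ⟨u, p.trans_le a, q, r, w.congr le_rfl fun i e => b i (e.trans p)⟩⟩

theorem cum_eq : (cum N t x l s : ℝ≥0∞) * 2⁻¹ ^ s =
    ∑ k ∈ range s, Fn.mu {X | Cf N t (it t x l k) s X} := by
  rw [cum, Nat.cast_sum, sum_mul]
  exact sum_congr rfl fun k _ =>
    (Fn.mu_loc (S := Cf N t (it t x l k) s) fun _ _ a b => b.congr le_rfl a).symm

theorem two (s : ℕ) : ((2 ^ s : ℕ) : ℝ≥0∞) * 2⁻¹ ^ s = 1 := by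
  push_cast
  rw [← mul_pow, ENNReal.mul_inv_cancel (by simp) (by simp), one_pow]

theorem lev : ∑' k, Fn.mu {X | ∃ s, Nx N t x l k s X} ≤ 1 := by
  rw [ENNReal.tsum_eq_iSup_sum]
  refine iSup_le fun S => ?_
  have m : ∀ k, Monotone fun s : {s // cum N t x l s ≤ 2 ^ s} =>
      {X | k < s.1 ∧ Cf N t (it t x l k) s X} := fun k s s' a X b =>
    ⟨b.1.trans_le a, b.2.congr a fun _ _ => rfl⟩
  rw [sum_congr rfl fun k _ => (congrArg _ (by ext; simp [Nx, and_left_comm])).trans (m k).measure_iUnion,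
    ENNReal.finsetSum_iSup_of_monotone fun k s s' a => measure_mono (m k a)]
  refine iSup_le fun s => (sum_le_sum_of_ne_zero (t := range s) fun k _ a => ?_).trans
    ((sum_le_sum fun k _ => measure_mono fun X a => a.2).trans (cum_eq.symm.trans_le ?_))
  · obtain ⟨X, b⟩ := nonempty_of_measure_ne_zero a
    exact mem_range.2 b.1
  · rw [← two s]
    gcongr
    exact s.2

theorem cf_wt (h : ∀ z t t', t ≤ t' → N z t = true → N z t' = true) :
    wt fw (fun i => ∃ s, Cf N t i s X) ≤ t.unpair.2 := wt_le.2 fun S a => by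
  choose! s u h1 h2 h3 h4 using a
  rcases S.eq_empty_or_nonempty with rfl | c
  · simp
  obtain ⟨j, b, d⟩ := S.exists_max_image u c
  refine (sum_le_sum_of_subset fun i e => mem_filter.2 ⟨mem_range.2 ((h2 i e).trans_le (d i e)),
    ?_⟩).trans (ns_le.1 (h4 j b))
  obtain ⟨m, p, q⟩ := h3 i e
  exact ⟨m, p.trans_le (d i e), h _ _ _ (d i e) q⟩

theorem kraft (h : ∀ z t t', t ≤ t' → N z t = true → N z t' = true) (F : Finset (Str × ℕ))
    (a : ∀ p ∈ F, ∃ l s, p.2 = l + t + t.unpair.2 ∧ 2 ^ s < cum N t (encode p.1) l s) :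
    ∑ p ∈ F, (1 / 2 : ℝ) ^ p.2 ≤ 1 := by
  choose l s h1 h2 using a
  have b := (int_wt (I := fun X i => ∃ s, Cf N t i s X) fun i =>
    loc_meas fun s _ _ a b => b.congr le_rfl a).2.symm.trans_le
      ((lintegral_mono (g := fun _ => t.unpair.2) fun X => cf_wt h).trans_eq
        (show _ = (t.unpair.2 : ℝ≥0∞) by simp))
  replace b := (ENNReal.tsum_comp_le_tsum_of_injective (f := fun q : F × ℕ =>
    it t (encode q.1.1.1) (l _ q.1.2) q.2) (fun q q' e => by
      simp only [it, Nat.pair_eq_pair, true_and, encode_inj] at e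
      exact Prod.ext (Subtype.ext (Prod.ext e.1 (by rw [h1 _ q.1.2, h1 _ q'.1.2, e.2.1]))) e.2.2)
        _).trans b
  rw [conv, ← F.tsum_subtype fun p => (2⁻¹ : ℝ≥0∞) ^ p.2, ← two t.unpair.2]
  rw [ENNReal.tsum_prod'] at b
  refine le_trans ?_ (mul_le_mul_left (b.trans (Nat.cast_le.2 Nat.lt_two_pow_self.le)) _)
  rw [← ENNReal.tsum_mul_right]
  refine ENNReal.tsum_le_tsum fun p => ?_
  have u : ∀ k, fw (it t (encode p.1.1) (l _ p.2) k) = l _ p.2 + t := by simp [fw, it, add_comm]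
  simp only [u, ENNReal.tsum_mul_left]
  rw [h1 _ p.2, pow_add]
  refine mul_le_mul_left (le_mul_of_one_le_right' (le_trans ?_
    (ENNReal.sum_le_tsum (range (s _ p.2))))) _
  refine le_trans (le_of_le_of_eq ?_ cum_eq) (sum_le_sum fun k _ => measure_mono
    fun X (a : Cf N t (it t (encode p.1.1) (l _ p.2) k) _ X) => ⟨_, a⟩)
  rw [← two (s _ p.2)]
  gcongr
  exact (h2 _ p.2).le

theorem geo : ∑' t : ℕ, (2⁻¹ : ℝ≥0∞) ^ t = 2 := by simp [ENNReal.tsum_geometric]

theorem tot {K : ℕ → ℕ} (h1 : ∑' n, (2⁻¹ : ℝ≥0∞) ^ K n ≤ 1)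
    (h2 : ∀ n l v, M (n, l) v = true → K n ≤ l) :
    ∑' i, 2⁻¹ ^ fw i * Fn.mu {X | ∃ s, Is N M A i s X} ≤ 8 := by
  have inj : ∀ n m, pre A n = pre A m → n = m := fun n m e => by
    simpa [pre_len] using congrArg List.length e
  rw [← Function.Injective.tsum_eq (g := fun q : ℕ × ℕ × ℕ × ℕ =>
    it q.1 (encode (pre A q.2.1)) q.2.2.1 q.2.2.2) (fun q q' e => by
      simp only [it, Nat.pair_eq_pair, encode_inj] at e
      exact Prod.ext e.1 (Prod.ext (inj _ _ e.2.1) (Prod.ext e.2.2.1 e.2.2.2))) fun i a => by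
    obtain ⟨X, s, n, -, b, -⟩ := nonempty_of_measure_ne_zero (right_ne_zero_of_mul a)
    exact ⟨(i.unpair.1, n, i.unpair.2.unpair.2.unpair), by simp only [it, ← b, Nat.pair_unpair]⟩]
  simp only [ENNReal.tsum_prod']
  refine (ENNReal.tsum_le_tsum (g := fun t => 2⁻¹ ^ t * 4) fun t => (ENNReal.tsum_le_tsum
    (g := fun n => 2⁻¹ ^ K n * (2⁻¹ ^ t * 4)) fun n => (ENNReal.tsum_le_tsum (g := fun l =>
      (if K n ≤ l then 2⁻¹ ^ l else 0) * (2⁻¹ ^ t * 2)) fun l => ?_).trans_eq ?_).trans ?_).trans_eq ?_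
  · simp only [fw, it, Nat.unpair_pair, ENNReal.tsum_mul_left]
    split_ifs with c
    · rw [pow_add, mul_comm (_ ^ t), mul_assoc, tsum_eq_zero_add' ENNReal.summable,
        ← one_add_one_eq_two]
      gcongr
      · exact prob_le_one
      · refine le_trans (ENNReal.tsum_le_tsum fun k => measure_mono ?_)
          (lev (N := N) (t := t) (x := encode (pre A n)) (l := l))
        rintro X ⟨s, m, -, -, -, a | ⟨u, -, a⟩⟩
        exacts [by simp at a, ⟨u, by simpa using a⟩]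
    · rw [zero_mul, nonpos_iff_eq_zero, mul_eq_zero, ENNReal.tsum_eq_zero]
      refine .inr fun k => (congrArg _ (Set.eq_empty_of_forall_notMem ?_)).trans measure_empty
      rintro X ⟨s, m, -, a, ⟨v, -, b⟩, -⟩
      simp only [Nat.unpair_pair, encode_inj] at a b
      exact c (inj _ _ a ▸ h2 _ _ _ b)
  · rw [ENNReal.tsum_mul_right, ← (add_right_injective (K n)).tsum_eq fun l a =>
      ⟨l - K n, Nat.add_sub_cancel' (by_contra fun b => a (if_neg b))⟩]
    simp only [le_add_iff_nonneg_right, zero_le, if_true, pow_add, ENNReal.tsum_mul_left, geo]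
    ring
  · rw [ENNReal.tsum_mul_right]
    exact mul_le_of_le_one_left' h1
  · rw [ENNReal.tsum_mul_right, geo]
    norm_num

section
variable {α : Type} [Primcodable α] {O : ℕ → Bool} {t x l k i s : α → ℕ} {X : α → ℕ → Bool}
  (n1 : Primrec fun x : (ℕ × ℕ) × ℕ => N x.1 x.2)
include n1

theorem ci_Cf (ht : CI O t) (hi : CI O i) (hs : CI O s) (hX : CI O fun z : α × ℕ => X z.1 z.2) :
    CI O fun a => cd (Cf N (t a) (i a) (s a) (X a)) := by
  unfold Cf ns En fw; fun_prop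

theorem ci_cum (ht : CI O t) (hx : CI O x) (hl : CI O l) (hs : CI O s) :
    CI O fun a => cum N (t a) (x a) (l a) (s a) := by
  have tb : Primrec fun z : ℕ × ℕ => Fn.tb z.1 z.2 := Fn.tb_prim
  exact ci_sum (ci_card (ci_Cf n1 (by fun_prop) (by unfold it; fun_prop) (by fun_prop)
    (by fun_prop)) (by fun_prop)) hs

theorem ci_Is (m1 : Primrec fun x : (ℕ × ℕ) × ℕ => M x.1 x.2) (hA : CI O A) (hi : CI O i)
    (hs : CI O s) (hX : CI O fun z : α × ℕ => X z.1 z.2) :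
    CI O fun a => cd (Is N M A (i a) (s a) (X a)) :=
  ci_exists_lt (ci_and (by fun_prop) (ci_and (by fun_prop) (ci_or (by fun_prop) (ci_exists_lt
    (ci_and (ci_le (ci_cum n1 (by fun_prop) (by fun_prop) (by fun_prop) (by fun_prop))
      (by fun_prop)) (ci_and (by fun_prop) (ci_Cf n1 (by fun_prop) (by unfold it; fun_prop)
        (by fun_prop) (by fun_prop)))) (by fun_prop))))) hs
end

theorem main {K : Str → ℕ} (h1 : ∀ F : Finset Str, ∑ x ∈ F, (1 / 2 : ℝ) ^ K x ≤ 1)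
    (h2 : REPred fun p : Str × ℕ => K p.1 ≤ p.2)
    (h3 : ∀ R : Str → ℕ → Prop, REPred (fun p : Str × ℕ => R p.1 p.2) →
      (∀ F : Finset (Str × ℕ), (∀ p ∈ F, R p.1 p.2) → ∑ p ∈ F, (1 / 2 : ℝ) ^ p.2 ≤ 1) →
        ∃ c, ∀ x l, R x l → K x ≤ l + c)
    {e : ℕ → Str} (he : Computable e) (ie : e.Injective) {A B : ℕ → Bool}
    (lr : ∀ X, RR B X → RR (jn A B) X) (hB : RR A B) : ∃ c, ∀ n, K (pre A n) ≤ K (e n) + c := by
  obtain ⟨N, n1, n2, n3, n4⟩ := re_bool (r_pw re_dom).re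
  obtain ⟨M, m1, m2, -, m3⟩ := re_bool (p := fun z : ℕ × ℕ => K (e z.1) ≤ z.2)
    (r_pw (r_comp (f := fun z : ℕ × ℕ => (e z.1, z.2)) (RE.un h2)
      ((he.comp .fst).pair .snd))).re
  have tt := int_wt (I := fun X i => ∃ s, Is N M A i s X) fun i =>
    loc_meas fun s _ _ a b => b.congr le_rfl a
  have k1 : ∑' n, (2⁻¹ : ℝ≥0∞) ^ K (e n) ≤ 1 := ENNReal.tsum_eq_iSup_sum.trans_le (iSup_le fun S =>
    (sum_image (f := fun x => (2⁻¹ : ℝ≥0∞) ^ K x) ie.injOn).symm.trans_le ((conv _ _).1 (h1 _)))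
  obtain ⟨a, ha⟩ := hB.test (T := fun a s X => ¬ ns (fun i => Is N M A i s X) s ≤ 2 ^ (a + 3) * 2 ^ s)
    (fun a s X Y b c => by
      beta_reduce
      rwa [← show (fun i => Is N M A i s X) = fun i => Is N M A i s Y from funext fun i =>
        propext ⟨fun d => d.congr le_rfl b, fun d => d.congr le_rfl fun i u => (b i u).symm⟩])
    (ci_not (ci_le (ci_sum (ci_ite (ci_Is n1 m1 (ci_self A) (by fun_prop) (by fun_prop)
      (by fun_prop)) (by unfold fw; fun_prop) (by fun_prop)) (by fun_prop)) (by fun_prop))) fun a => by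
    refine (measure_mono (t := {X | 2 ^ (a + 3) ≤ wt fw fun i => ∃ s, Is N M A i s X})
      fun X b => b.elim fun s b => Set.mem_setOf.2 (le_of_not_ge fun c => b (ns_le.2 ?_))).trans
        ((meas_ge_le_lintegral_div tt.1 (by simp) (by simp)).trans (ENNReal.div_le_of_le_mul
          (tt.2.trans_le ((tot k1 fun n l v => m2 (n, l) v).trans_eq ?_))))
    · rw [pow_add, ← mul_assoc, ← mul_pow, ENNReal.inv_mul_cancel (by simp) (by simp)]
      norm_num
    · exact (wt_le.1 c _ fun i d => ⟨s, (mem_filter.1 d).2⟩).trans_eq (by simp)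
  obtain ⟨T, j1, j2, c, j3⟩ := kms (I := fun i => ∃ s, Is N M A i s B) (f := fw) (a := a + 3) lr
    (i_exists (R := fun i s => Is N M A i s B) (i_ci (ci_Is n1 m1 (jn_l A B) (by fun_prop)
      (by fun_prop) (ci_comp (jn_r A B) (by fun_prop))))).un (by unfold fw; fun_prop) (wt_le.2 fun S b => by
    obtain ⟨s, hs⟩ := ((eventually_all_finset (p := fun i s => i ∈ (range s).filter fun i =>
      Is N M A i s B) S).2 fun i d => (b i d).elim fun s u =>
      ((eventually_gt_atTop i).and (eventually_ge_atTop s)).mono fun s' v => mem_filter.2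
        ⟨mem_range.2 v.1, u.congr v.2 fun _ _ => rfl⟩).exists
    exact (sum_le_sum_of_subset hs).trans ((ns_le.1 (not_not.1 (ha s))).trans_eq (by simp)))
  obtain ⟨q, hq⟩ := j1.idx
  simp only [J_iff, Nat.unpair_pair, encode_nat] at hq
  have hc : CI (fun _ => false) fun z : ((Str × ℕ) × ℕ) × ℕ => cd (z.1.1.2 = z.1.2 + q.pair c +
      (q.pair c).unpair.2 ∧ 2 ^ z.2 < cum N (q.pair c) (encode z.1.1.1) z.1.2 z.2) :=
    ci_and (by fun_prop) (ci_lt (by fun_prop)
      (ci_cum n1 (by fun_prop) (by fun_prop) (by fun_prop) (by fun_prop)))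
  obtain ⟨d, hd⟩ := h3 (fun σ r => ∃ l s, r = l + q.pair c + (q.pair c).unpair.2 ∧
    2 ^ s < cum N (q.pair c) (encode σ) l s) (r_pw (RI.re (RI.un (by
      refine i_exists (i_exists (i_ci hc)))))).re fun F => kraft n3 F
  refine ⟨q.pair c + (q.pair c).unpair.2 + d, fun n => (hd _ _ ⟨K (e n), ?_⟩).trans (by
    rw [← add_assoc, ← add_assoc])⟩
  by_contra! b
  obtain ⟨v, hv⟩ := m3 (n, K (e n)) le_rfl
  have all : ∀ k, T (it (q.pair c) (encode (pre A n)) (K (e n)) k) := fun k => by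
    induction k with
    | zero => exact j2 _ ⟨n + v + 1, n, by omega, by simp [it], ⟨v, by omega, by simpa [it]⟩,
        .inl (by simp [it])⟩
    | succ k ih =>
      obtain ⟨m, hm⟩ := (hq _).2 ih
      obtain ⟨w, hw⟩ := n4 (q, _) hm
      generalize hy : it (q.pair c) (encode (pre A n)) (K (e n)) k = y at hw
      refine j2 _ ⟨n + v + m + w + y + k + 3, n, by omega, by simp [it], ⟨v, by omega, by
        simpa [it]⟩, .inr ⟨m + w + y + k + 2, by omega, ?_⟩⟩
      simp only [it, Nat.unpair_pair, Nat.add_sub_cancel]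
      refine ⟨b _ rfl, by omega, hy ▸ ⟨m + w + y + 1, by omega, by omega, ⟨m, by omega,
        n3 _ w _ (by omega) (by simpa [hy] using hw)⟩, ns_le.2 ?_⟩⟩
      simp only [Nat.unpair_pair]
      exact wt_le.1 j3 _ fun i u => let ⟨m, _, p⟩ := (mem_filter.1 u).2; (hq i).1 ⟨m, n2 _ _ p⟩
  refine (j3.trans_lt (ENNReal.natCast_lt_top c)).not_ge (le_trans ?_
    (ENNReal.tsum_comp_le_tsum_of_injective (f := it (q.pair c) (encode (pre A n)) (K (e n)))
      (fun _ _ => by simp [it]) _))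
  simp only [all, if_true]
  simp only [fw, it, Nat.unpair_pair]
  exact (ENNReal.tsum_const_eq_top_of_ne_zero (by simp)).ge

end Pool.Agent.H.MP_de6bcb_lc
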